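import Pool.Agent.helper21.CP.Conway

/-!
# Counting the integers `k ≤ X` with `k * a` close to an integer, by a good approximation
-/

set_option autoImplicit false

namespace Pool.Agent.helper21.CP

/-- If `|a - r| ≤ 1 / den^2` and `den ≤ X`, `1 / den ≤ δ`, then at most `10 δ X` of the integers
`k ≤ X` have `k * a` within `δ` of an integer. -/
theorem ncard_block {a : ℝ} {r : ℚ} (hr : |a - r| ≤ 1 / (r.den : ℝ) ^ 2)
    {X δ : ℝ} (hX : (r.den : ℝ) ≤ X) (hδ : 1 ≤ (r.den : ℝ) * δ) :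
    {k : ℕ | (k : ℝ) ≤ X ∧ nint ((k : ℝ) * a) < δ}.Finite ∧
    (({k : ℕ | (k : ℝ) ≤ X ∧ nint ((k : ℝ) * a) < δ}.ncard : ℕ) : ℝ) ≤ 10 * δ * X := by
  set q : ℕ := r.den with hq
  have hq0 : 0 < q := r.den_pos
  have hq1 : (1 : ℝ) ≤ q := by exact_mod_cast hq0
  have hδ0 : 0 < δ := by
    by_contra h
    have : (q : ℝ) * δ ≤ 0 := mul_nonpos_of_nonneg_of_nonpos (by positivity) (not_lt.1 h)
    linarith
  set A : Set ℕ := {k : ℕ | (k : ℝ) ≤ X ∧ nint ((k : ℝ) * a) < δ} with hA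
  have hra : |(q : ℝ) * a - r.num| ≤ 1 / q := by
    have e : (q : ℝ) * a - r.num = q * (a - r) := by
      have : (r : ℝ) = r.num / q := by rw [hq]; exact_mod_cast (Rat.num_div_den r).symm
      rw [this]
      field_simp
    rw [e, abs_mul, abs_of_pos (by positivity : (0 : ℝ) < q)]
    calc (q : ℝ) * |a - r| ≤ q * (1 / (q : ℝ) ^ 2) := by gcongr
      _ = 1 / q := by field_simp
  -- the map
  set N : ℕ := ⌊X / q⌋₊ + 1 with hN
  let c : ℕ → ℝ := fun m => -((m : ℝ) * q * (q * a))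
  let S : Finset (Σ _ : ℕ, ℤ) := (Finset.range N).sigma
    (fun m => Finset.Icc ⌈c m - (q * δ + 1)⌉ ⌊c m + (q * δ + 1)⌋)
  let Φ : ℕ → (Σ _ : ℕ, ℤ) := fun k => ⟨k / q, r.num * (k % q : ℕ) - q * round ((k : ℝ) * a)⟩
  have hmaps : Set.MapsTo Φ A (S : Set (Σ _ : ℕ, ℤ)) := by
    rintro k ⟨hk, hkd⟩
    rw [Finset.mem_coe, Finset.mem_sigma]
    refine ⟨?_, ?_⟩
    · rw [Finset.mem_range, hN, Nat.lt_succ_iff]
      show k / q ≤ _
      rw [Nat.le_floor_iff (div_nonneg (by linarith) (by linarith))]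
      exact Nat.cast_div_le.trans (by gcongr)
    · set m : ℕ := k / q with hm
      set s : ℕ := k % q with hs
      have hks : (k : ℝ) = q * m + s := by
        have := Nat.div_add_mod k q
        exact_mod_cast this.symm
      have hsq : (s : ℝ) ≤ q := by exact_mod_cast (Nat.mod_lt k hq0).le
      have e : (r.num : ℝ) * s - q * round ((k : ℝ) * a) - c m =
          q * ((k : ℝ) * a - round ((k : ℝ) * a)) - s * ((q : ℝ) * a - r.num) := by
        show (r.num : ℝ) * s - q * round ((k : ℝ) * a) - -((m : ℝ) * q * (q * a)) = _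
        have : (q : ℝ) * (k * a) = q * m * (q * a) + s * (q * a) := by rw [hks]; ring
        linear_combination -this
      have h1 : |(q : ℝ) * ((k : ℝ) * a - round ((k : ℝ) * a))| ≤ q * δ := by
        rw [abs_mul, abs_of_pos (by positivity : (0 : ℝ) < q)]
        unfold nint at hkd
        gcongr
      have h2 : |(s : ℝ) * ((q : ℝ) * a - r.num)| ≤ 1 := by
        rw [abs_mul, abs_of_nonneg (by positivity : (0 : ℝ) ≤ s)]
        calc (s : ℝ) * |(q : ℝ) * a - r.num| ≤ q * (1 / q) := by gcongr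
          _ = 1 := by field_simp
      have h3 : |(r.num : ℝ) * s - q * round ((k : ℝ) * a) - c m| ≤ q * δ + 1 := by
        rw [e]
        exact (abs_sub _ _).trans (add_le_add h1 h2)
      rw [abs_le] at h3
      have hsnd : (((Φ k).snd : ℤ) : ℝ) = (r.num : ℝ) * s - q * round ((k : ℝ) * a) := by
        show ((r.num * (k % q : ℕ) - q * round ((k : ℝ) * a) : ℤ) : ℝ) = _
        rw [← hs]
        push_cast
        ring
      have hfst : c (Φ k).fst = c m := rfl
      rw [Finset.mem_Icc]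
      constructor
      · rw [Int.ceil_le, hsnd, hfst]
        linarith [h3.1]
      · rw [Int.le_floor, hsnd, hfst]
        linarith [h3.2]
  have hinj : Set.InjOn Φ A := by
    intro k _ k' _ he
    have h1 : k / q = k' / q := congrArg Sigma.fst he
    have h2 : r.num * (k % q : ℕ) - q * round ((k : ℝ) * a) =
        r.num * (k' % q : ℕ) - q * round ((k' : ℝ) * a) := by
      have := congrArg (fun x : (Σ _ : ℕ, ℤ) => x.2) he
      exact this
    have h3 : (q : ℤ) ∣ r.num * (((k % q : ℕ) : ℤ) - ((k' % q : ℕ) : ℤ)) :=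
      ⟨round ((k : ℝ) * a) - round ((k' : ℝ) * a), by linear_combination h2⟩
    have hcop : IsCoprime (q : ℤ) r.num := by
      have := r.reduced
      rw [Int.isCoprime_iff_nat_coprime, Int.natAbs_natCast]
      exact this.symm
    have h4 : (q : ℤ) ∣ ((k % q : ℕ) : ℤ) - ((k' % q : ℕ) : ℤ) := hcop.dvd_of_dvd_mul_left h3
    have h5 : ((k % q : ℕ) : ℤ) - ((k' % q : ℕ) : ℤ) = 0 := by
      refine Int.eq_zero_of_abs_lt_dvd h4 ?_
      have := Nat.mod_lt k hq0
      have := Nat.mod_lt k' hq0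
      rw [abs_lt]
      omega
    have h6 : k % q = k' % q := by omega
    rw [← Nat.div_add_mod k q, ← Nat.div_add_mod k' q, h1, h6]
  have hfin : A.Finite := Set.Finite.of_injOn hmaps hinj (Finset.finite_toSet _)
  refine ⟨hfin, ?_⟩
  have h1 : A.ncard ≤ S.card := by
    have := Set.ncard_le_ncard_of_injOn _ (fun k hk => hmaps hk) hinj (Finset.finite_toSet _)
    rwa [Set.ncard_coe_finset] at this
  have h2 : (S.card : ℝ) ≤ N * (2 * (q * δ) + 3) := by
    rw [Finset.card_sigma]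
    push_cast
    calc ∑ m ∈ Finset.range N, ((Finset.Icc ⌈c m - (q * δ + 1)⌉ ⌊c m + (q * δ + 1)⌋).card : ℝ)
        ≤ ∑ m ∈ Finset.range N, (2 * (q * δ) + 3) := by
          refine Finset.sum_le_sum fun m _ => ?_
          rw [Int.card_Icc]
          have h5 : (((⌊c m + (q * δ + 1)⌋ + 1 - ⌈c m - (q * δ + 1)⌉).toNat : ℕ) : ℝ) ≤
              max ((⌊c m + (q * δ + 1)⌋ + 1 - ⌈c m - (q * δ + 1)⌉ : ℤ) : ℝ) 0 := by
            have : (((⌊c m + (q * δ + 1)⌋ + 1 - ⌈c m - (q * δ + 1)⌉).toNat : ℕ) : ℤ) ≤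
              max (⌊c m + (q * δ + 1)⌋ + 1 - ⌈c m - (q * δ + 1)⌉ : ℤ) 0 := by
              rw [Int.ofNat_toNat]
            exact_mod_cast this
          refine h5.trans (max_le ?_ (by positivity))
          push_cast
          have h6 := Int.floor_le (c m + (q * δ + 1))
          have h7 := Int.le_ceil (c m - (q * δ + 1))
          linarith
      _ = N * (2 * (q * δ) + 3) := by rw [Finset.sum_const, Finset.card_range, nsmul_eq_mul]
  have h3 : (N : ℝ) ≤ 2 * (X / q) := by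
    rw [hN]
    push_cast
    have h4 : 1 ≤ X / q := by rwa [one_le_div (by positivity)]
    have := Nat.floor_le (a := X / q) (by positivity)
    linarith
  have hXq : 0 ≤ X / q := div_nonneg (by linarith) (by linarith)
  calc (A.ncard : ℝ) ≤ S.card := by exact_mod_cast h1
    _ ≤ N * (2 * (q * δ) + 3) := h2
    _ ≤ 2 * (X / q) * (2 * (q * δ) + 3 * (q * δ)) := by gcongr; linarith
    _ = 10 * δ * X := by field_simp; ring

/-- The lengths of the cycles, counted with the help of a good approximation. -/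
theorem count_block {r : ℚ} (hr : |Real.log 3 / Real.log 2 - r| ≤ 1 / (r.den : ℝ) ^ 2)
    {X η : ℝ} (hX : (r.den : ℝ) ≤ X) (hη : 1 ≤ (r.den : ℝ) * η) (hη1 : η ≤ 1) :
    (({k : ℕ | (k : ℝ) ≤ X ∧ k ∈ Lengths}.ncard : ℕ) : ℝ) ≤
      3 * (1 + Real.log (X / η)) / η + 10 * η * X := by
  have hq1 : (1 : ℝ) ≤ r.den := by exact_mod_cast r.den_pos
  have hX1 : 1 ≤ X := hq1.trans hX
  have hη0 : 0 < η := by
    by_contra h
    have : (r.den : ℝ) * η ≤ 0 := mul_nonpos_of_nonneg_of_nonpos (by positivity) (not_lt.1 h)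
    linarith
  obtain ⟨hf, hn⟩ := few hX1 hη0 hη1
  obtain ⟨hf2, hn2⟩ := ncard_block hr hX hη
  set A : Set (Finset ℕ) := {c : Finset ℕ | IsCyc c ∧ (c.card : ℝ) ≤ X ∧
      η ≤ nint ((c.card : ℝ) * (Real.log 3 / Real.log 2))} with hA
  set B : Set ℕ := {k : ℕ | (k : ℝ) ≤ X ∧ nint ((k : ℝ) * (Real.log 3 / Real.log 2)) < η} with hB
  have hsub : {k : ℕ | (k : ℝ) ≤ X ∧ k ∈ Lengths} ⊆ (Finset.card '' A) ∪ B := by
    rintro k ⟨hk, c, hc, hk'⟩
    by_cases hd : η ≤ nint ((k : ℝ) * (Real.log 3 / Real.log 2))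
    · exact Or.inl ⟨c, ⟨hc, by rw [hk']; exact hk, by rw [hk']; exact hd⟩, hk'⟩
    · exact Or.inr ⟨hk, not_le.1 hd⟩
  have h4 : (((Finset.card '' A) ∪ B).ncard : ℝ) ≤ (A.ncard : ℝ) + B.ncard := by
    have h5 := Set.ncard_union_le (Finset.card '' A) B
    have h6 := Set.ncard_image_le (f := Finset.card) hf
    exact_mod_cast h5.trans (Nat.add_le_add_right h6 _)
  have h0 : (({k : ℕ | (k : ℝ) ≤ X ∧ k ∈ Lengths}.ncard : ℕ) : ℝ) ≤
      (((Finset.card '' A) ∪ B).ncard : ℝ) := by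
    exact_mod_cast Set.ncard_le_ncard hsub ((hf.image _).union hf2)
  exact (h0.trans h4).trans (add_le_add hn hn2)

/-- `η = X^(-1/2)`: exponent `1/2` for `den ≤ X ≤ den^2`. -/
theorem count_half {r : ℚ} (hr : |Real.log 3 / Real.log 2 - r| ≤ 1 / (r.den : ℝ) ^ 2)
    {X : ℝ} (hX : (r.den : ℝ) ≤ X) (hX2 : X ≤ (r.den : ℝ) ^ 2) :
    (({k : ℕ | (k : ℝ) ≤ X ∧ k ∈ Lengths}.ncard : ℕ) : ℝ) ≤
      15 * Real.sqrt X * (1 + Real.log X) := by
  have hq1 : (1 : ℝ) ≤ r.den := by exact_mod_cast r.den_pos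
  have hX1 : 1 ≤ X := hq1.trans hX
  have hX0 : 0 < X := by linarith
  set s : ℝ := Real.sqrt X with hs
  have hs1 : 1 ≤ s := Real.one_le_sqrt.2 hX1
  have hs0 : 0 < s := by linarith
  have hss : s * s = X := Real.mul_self_sqrt hX0.le
  have hsq : s ≤ r.den := by
    rw [hs, Real.sqrt_le_left (by positivity)]
    exact hX2
  have h1 := count_block hr (η := 1 / s) hX (by
    rw [mul_one_div, one_le_div hs0]; exact hsq) (by rw [div_le_one hs0]; exact hs1)
  refine h1.trans ?_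
  have hlog0 := Real.log_nonneg hX1
  have e1 : Real.log (X / (1 / s)) = 3 / 2 * Real.log X := by
    rw [div_div_eq_mul_div, div_one, Real.log_mul hX0.ne' hs0.ne', hs, Real.log_sqrt hX0.le]
    ring
  have e2 : 10 * (1 / s) * X = 10 * s := by
    rw [← hss]; field_simp
  rw [e1, e2, div_div_eq_mul_div, div_one]
  nlinarith [mul_nonneg hs0.le hlog0]

/-- exponent `22/23` for all `X`. -/
theorem count_all : ∃ C : ℝ, 0 < C ∧ ∀ X : ℝ, 1 ≤ X →
    (({k : ℕ | (k : ℝ) ≤ X ∧ k ∈ Lengths}.ncard : ℕ) : ℝ) ≤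
      C * X ^ (22 / 23 : ℝ) * (1 + Real.log X) := by
  obtain ⟨c, hc, hm⟩ := measure
  set D : ℝ := c ^ (-(23 : ℝ)⁻¹) with hD
  have hD0 : 0 < D := by positivity
  refine ⟨6 + 10 * (D + 1), by positivity, fun X hX => ?_⟩
  have hX0 : 0 < X := by linarith
  have hlog0 := Real.log_nonneg hX
  set n : ℕ := ⌊X⌋₊ with hn
  have hn0 : 0 < n := Nat.floor_pos.2 hX
  obtain ⟨r, hr1, hr2⟩ := Real.exists_rat_abs_sub_le_and_den_le (Real.log 3 / Real.log 2) hn0
  have hq0 : (0 : ℝ) < r.den := by exact_mod_cast r.den_pos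
  have hqn : (r.den : ℝ) ≤ n := by exact_mod_cast hr2
  have hnX : (n : ℝ) ≤ X := Nat.floor_le hX0.le
  have hXn : X < n + 1 := Nat.lt_floor_add_one X
  have hqX : (r.den : ℝ) ≤ X := hqn.trans hnX
  have hr : |Real.log 3 / Real.log 2 - r| ≤ 1 / (r.den : ℝ) ^ 2 := by
    refine hr1.trans ?_
    rw [pow_two]
    exact one_div_le_one_div_of_le (by positivity) (by gcongr; linarith)
  -- the denominator is large
  have h1 : c / (r.den : ℝ) ^ 23 ≤ 1 / X := by
    refine (hm r.den r.den_pos r.num).trans ?_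
    have e : (r.den : ℝ) * (Real.log 3 / Real.log 2) - r.num =
        r.den * (Real.log 3 / Real.log 2 - r) := by
      have : (r : ℝ) = r.num / r.den := by exact_mod_cast (Rat.num_div_den r).symm
      rw [this]
      field_simp
    rw [e, abs_mul, abs_of_pos hq0]
    calc (r.den : ℝ) * |Real.log 3 / Real.log 2 - r| ≤ r.den * (1 / ((n + 1) * r.den)) := by gcongr
      _ = 1 / (n + 1) := by field_simp
      _ ≤ 1 / X := one_div_le_one_div_of_le hX0 hXn.le
  have h2 : c * X ≤ (r.den : ℝ) ^ 23 := by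
    rw [div_le_div_iff₀ (by positivity) hX0, one_mul] at h1
    exact h1
  have h3 : (c * X) ^ ((23 : ℝ)⁻¹) ≤ r.den := by
    have := Real.rpow_le_rpow (by positivity) h2 (show (0 : ℝ) ≤ ((23 : ℕ) : ℝ)⁻¹ by positivity)
    rw [Real.pow_rpow_inv_natCast hq0.le (by norm_num)] at this
    exact_mod_cast this
  set η : ℝ := min 1 ((D + 1) * X ^ (-(23 : ℝ)⁻¹)) with hη
  have hη1 : η ≤ 1 := min_le_left _ _
  have hη0 : 0 < η := by
    rw [hη]; positivity
  have hηle : η ≤ (D + 1) * X ^ (-(23 : ℝ)⁻¹) := min_le_right _ _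
  have hq1 : (1 : ℝ) ≤ r.den := by exact_mod_cast r.den_pos
  have hlow : 1 ≤ (r.den : ℝ) * η := by
    rw [hη, mul_min_of_nonneg _ _ hq0.le]
    refine le_min (by linarith) ?_
    calc (1 : ℝ) = (c * X) ^ ((23 : ℝ)⁻¹) * (D * X ^ (-(23 : ℝ)⁻¹)) := by
          rw [hD, Real.mul_rpow hc.le hX0.le, Real.rpow_neg hc.le, Real.rpow_neg hX0.le]
          field_simp
      _ ≤ (r.den : ℝ) * ((D + 1) * X ^ (-(23 : ℝ)⁻¹)) := by gcongr; linarith
  have hlow2 : X ^ (-(23 : ℝ)⁻¹) ≤ η := by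
    rw [hη]
    refine le_min (Real.rpow_le_one_of_one_le_of_nonpos hX (by norm_num)) ?_
    nlinarith [Real.rpow_pos_of_pos hX0 (-(23 : ℝ)⁻¹)]
  have hb := count_block hr hqX hlow hη1
  refine hb.trans ?_
  have hXt : (1 : ℝ) ≤ X ^ (22 / 23 : ℝ) := Real.one_le_rpow hX (by norm_num)
  have e1 : Real.log (X / η) ≤ 2 * Real.log X := by
    have : X / η ≤ X ^ 2 := by
      rw [div_le_iff₀ hη0]
      have h5 : X ^ (-(1 : ℝ)) ≤ X ^ (-(23 : ℝ)⁻¹) :=
        Real.rpow_le_rpow_of_exponent_le hX (by norm_num)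
      have h6 : X⁻¹ ≤ η := by
        rw [← Real.rpow_neg_one]
        exact h5.trans hlow2
      calc X = X ^ 2 * X⁻¹ := by field_simp
        _ ≤ X ^ 2 * η := by gcongr
    calc Real.log (X / η) ≤ Real.log (X ^ 2) := Real.log_le_log (by positivity) this
      _ = 2 * Real.log X := by rw [Real.log_pow]; norm_num
  have e2 : 1 / η ≤ X ^ (22 / 23 : ℝ) := by
    have h5 : 1 / η ≤ 1 / X ^ (-(23 : ℝ)⁻¹) := one_div_le_one_div_of_le (by positivity) hlow2
    refine h5.trans ?_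
    rw [Real.rpow_neg hX0.le, one_div, inv_inv]
    exact Real.rpow_le_rpow_of_exponent_le hX (by norm_num)
  have e3 : η * X ≤ (D + 1) * X ^ (22 / 23 : ℝ) := by
    calc η * X ≤ (D + 1) * X ^ (-(23 : ℝ)⁻¹) * X := by gcongr
      _ = (D + 1) * X ^ (22 / 23 : ℝ) := by
        rw [mul_assoc]
        congr 1
        nth_rewrite 2 [← Real.rpow_one X]
        rw [← Real.rpow_add hX0]
        norm_num
  have e4 : 3 * (1 + Real.log (X / η)) / η ≤ 6 * X ^ (22 / 23 : ℝ) * (1 + Real.log X) := by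
    have h9 : 3 * (1 + Real.log (X / η)) ≤ 6 * (1 + Real.log X) := by linarith
    calc 3 * (1 + Real.log (X / η)) / η = 3 * (1 + Real.log (X / η)) * (1 / η) := by ring
      _ ≤ 6 * (1 + Real.log X) * (1 / η) := mul_le_mul_of_nonneg_right h9 (by positivity)
      _ ≤ 6 * (1 + Real.log X) * X ^ (22 / 23 : ℝ) :=
        mul_le_mul_of_nonneg_left e2 (by linarith)
      _ = _ := by ring
  have e5 : 10 * η * X ≤ 10 * (D + 1) * X ^ (22 / 23 : ℝ) * (1 + Real.log X) := by
    have h7 : 0 ≤ (D + 1) * X ^ (22 / 23 : ℝ) := by positivity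
    nlinarith
  linarith

/-- there are arbitrarily large good denominators -/
theorem large_den (N : ℕ) : ∃ r : ℚ, |Real.log 3 / Real.log 2 - r| ≤ 1 / (r.den : ℝ) ^ 2 ∧
    N ≤ r.den := by
  obtain ⟨c, hc, hm⟩ := measure
  set n : ℕ := ⌈((N : ℝ) + 1) ^ 23 / c⌉₊ + 1 with hn
  obtain ⟨r, hr1, hr2⟩ := Real.exists_rat_abs_sub_le_and_den_le (Real.log 3 / Real.log 2)
    (show 0 < n by omega)
  have hq0 : (0 : ℝ) < r.den := by exact_mod_cast r.den_pos
  have hqn : (r.den : ℝ) ≤ n := by exact_mod_cast hr2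
  refine ⟨r, ?_, ?_⟩
  · refine hr1.trans ?_
    rw [pow_two]
    exact one_div_le_one_div_of_le (by positivity) (by gcongr; linarith)
  · by_contra hlt
    have hlt' : (r.den : ℝ) ≤ N + 1 := by
      have : (r.den : ℝ) ≤ N := by exact_mod_cast (not_le.1 hlt).le
      linarith
    have h1 : c / (r.den : ℝ) ^ 23 ≤ 1 / (n + 1) := by
      refine (hm r.den r.den_pos r.num).trans ?_
      have e : (r.den : ℝ) * (Real.log 3 / Real.log 2) - r.num =
          r.den * (Real.log 3 / Real.log 2 - r) := by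
        have : (r : ℝ) = r.num / r.den := by exact_mod_cast (Rat.num_div_den r).symm
        rw [this]
        field_simp
      rw [e, abs_mul, abs_of_pos hq0]
      calc (r.den : ℝ) * |Real.log 3 / Real.log 2 - r| ≤ r.den * (1 / ((n + 1) * r.den)) := by gcongr
        _ = 1 / (n + 1) := by field_simp
    have h2 : c * (n + 1) ≤ ((N : ℝ) + 1) ^ 23 := by
      rw [div_le_div_iff₀ (by positivity) (by positivity), one_mul] at h1
      exact h1.trans (pow_le_pow_left₀ hq0.le hlt' 23)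
    have h3 : ((N : ℝ) + 1) ^ 23 / c ≤ n - 1 := by
      have := Nat.le_ceil (((N : ℝ) + 1) ^ 23 / c)
      rw [hn]
      push_cast
      linarith
    rw [div_le_iff₀ hc] at h3
    nlinarith

end Pool.Agent.helper21.CP
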