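import Mathlib

/-!
# Counting the integers `k ≤ X` with `k * a` close to an integer

The irrationality measure of `a` is used through gaps.
-/

set_option autoImplicit false

namespace Pool.Agent.helper21.CP

/-- distance to the nearest integer -/
noncomputable def nint (x : ℝ) : ℝ := |x - round x|

theorem nint_le (x : ℝ) (j : ℤ) : nint x ≤ |x - j| := round_le x j

/-- The integers `k ≤ X` for which `k * a` is within `δ` of an integer. -/
theorem ncard_near {a c : ℝ} {κ : ℕ} (hκ : κ ≠ 0) (hc : 0 < c)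
    (hm : ∀ d : ℕ, 1 ≤ d → ∀ i : ℤ, c / (d : ℝ) ^ κ ≤ |(d : ℝ) * a - i|)
    {X δ : ℝ} (hX : 0 ≤ X) (hδ : 0 < δ) :
    {k : ℕ | (k : ℝ) ≤ X ∧ nint ((k : ℝ) * a) < δ}.Finite ∧
    (({k : ℕ | (k : ℝ) ≤ X ∧ nint ((k : ℝ) * a) < δ}.ncard : ℕ) : ℝ) ≤
      X * (2 * δ / c) ^ ((κ : ℝ)⁻¹) + 1 := by
  set A : Set ℕ := {k : ℕ | (k : ℝ) ≤ X ∧ nint ((k : ℝ) * a) < δ} with hA
  set g : ℝ := (c / (2 * δ)) ^ ((κ : ℝ)⁻¹) with hg
  have hg0 : 0 < g := by positivity
  have hgap : ∀ k ∈ A, ∀ k' ∈ A, k < k' → g ≤ (k' : ℝ) - k := by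
    rintro k ⟨_, hj⟩ k' ⟨_, hj'⟩ hlt
    have hd : 1 ≤ k' - k := by omega
    have h1 := hm _ hd (round ((k' : ℝ) * a) - round ((k : ℝ) * a))
    have h2 : |((k' - k : ℕ) : ℝ) * a - ((round ((k' : ℝ) * a) - round ((k : ℝ) * a) : ℤ) : ℝ)| ≤
        2 * δ := by
      have e : ((k' - k : ℕ) : ℝ) * a - ((round ((k' : ℝ) * a) - round ((k : ℝ) * a) : ℤ) : ℝ) =
          ((k' : ℝ) * a - round ((k' : ℝ) * a)) - ((k : ℝ) * a - round ((k : ℝ) * a)) := by
        rw [Nat.cast_sub hlt.le]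
        push_cast
        ring
      rw [e]
      have h3 := abs_sub ((k' : ℝ) * a - round ((k' : ℝ) * a)) ((k : ℝ) * a - round ((k : ℝ) * a))
      unfold nint at hj hj'
      linarith
    have h3 := h1.trans h2
    have hdpos : (0 : ℝ) < ((k' - k : ℕ) : ℝ) := by exact_mod_cast hd
    rw [div_le_iff₀ (by positivity)] at h3
    have h4 : c / (2 * δ) ≤ ((k' - k : ℕ) : ℝ) ^ κ := by
      rw [div_le_iff₀ (by positivity)]
      linarith
    have h5 : g ≤ (((k' - k : ℕ) : ℝ) ^ κ) ^ ((κ : ℝ)⁻¹) :=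
      Real.rpow_le_rpow (by positivity) h4 (by positivity)
    rw [Real.pow_rpow_inv_natCast hdpos.le hκ, Nat.cast_sub hlt.le] at h5
    exact h5
  have hinj : Set.InjOn (fun k : ℕ => ⌊(k : ℝ) / g⌋₊) A := by
    have key : ∀ k ∈ A, ∀ k' ∈ A, k < k' → ⌊(k : ℝ) / g⌋₊ ≠ ⌊(k' : ℝ) / g⌋₊ := by
      intro k hk k' hk' hlt he
      have h1 := hgap k hk k' hk' hlt
      have h2 : (k : ℝ) / g + 1 ≤ (k' : ℝ) / g := by
        rw [div_add_one hg0.ne', div_le_div_iff_of_pos_right hg0]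
        linarith
      have h3 : ⌊(k : ℝ) / g⌋₊ + 1 ≤ ⌊(k' : ℝ) / g⌋₊ := by
        rw [Nat.le_floor_iff (by positivity)]
        push_cast
        have := Nat.floor_le (a := (k : ℝ) / g) (by positivity)
        linarith
      omega
    intro k hk k' hk' he
    rcases lt_trichotomy k k' with h | h | h
    · exact absurd he (key k hk k' hk' h)
    · exact h
    · exact absurd he.symm (key k' hk' k hk h)
  have hmaps : Set.MapsTo (fun k : ℕ => ⌊(k : ℝ) / g⌋₊) A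
      (Finset.range (⌊X / g⌋₊ + 1) : Set ℕ) := by
    intro k hk
    rw [Finset.mem_coe, Finset.mem_range, Nat.lt_succ_iff]
    exact Nat.floor_le_floor (div_le_div_of_nonneg_right hk.1 hg0.le)
  have hfin : A.Finite := Set.Finite.of_injOn hmaps hinj (Finset.finite_toSet _)
  refine ⟨hfin, ?_⟩
  have h1 : A.ncard ≤ ⌊X / g⌋₊ + 1 := by
    have := Set.ncard_le_ncard_of_injOn _ (fun k hk => hmaps hk) hinj (Finset.finite_toSet _)
    rwa [Set.ncard_coe_finset, Finset.card_range] at this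
  have h2 : (A.ncard : ℝ) ≤ X / g + 1 := by
    have h3 : (A.ncard : ℝ) ≤ (⌊X / g⌋₊ : ℝ) + 1 := by exact_mod_cast h1
    have := Nat.floor_le (a := X / g) (by positivity)
    linarith
  have h3 : X / g = X * (2 * δ / c) ^ ((κ : ℝ)⁻¹) := by
    rw [hg, div_eq_mul_inv, ← Real.inv_rpow (by positivity), inv_div]
  rw [← h3]
  exact h2

end Pool.Agent.helper21.CP
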