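import Pool.Agent.helper21.CP.Cyc
import Pool.Agent.helper21.CP.Near
import Pool.Agent.helper94.Conway
import Pool.Agent.helper63.CL.Form

/-!
# Cycles of Conway's permutation: almost no integer is a cycle length
-/

set_option autoImplicit false

namespace Pool.Agent.helper21.CP

open Function Pool.Agent.helper94

theorem T_pos {m : ℕ} (hm : 0 < m) : 0 < conwayT m := by
  rcases Nat.mod_two_eq_zero_or_one m with h | h
  · have := conwayT_even h
    omega
  · rcases conwayT_odd h with h1 | h1 <;> omega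

theorem iter_pos {m : ℕ} (hm : 0 < m) (i : ℕ) : 0 < conwayT^[i] m := by
  induction i with
  | zero => simpa using hm
  | succ i ih => rw [iterate_succ_apply']; exact T_pos ih

/-- the correction at an odd integer -/
noncomputable def eps (m : ℕ) : ℝ :=
  if m % 2 = 0 then 0 else Real.log (conwayT m) - Real.log m - Real.log 3 + 2 * Real.log 2

theorem abs_eps_le {m : ℕ} (hm : 0 < m) : |eps m| ≤ 1 / (2 * (m : ℝ)) := by
  unfold eps
  have hm1 : (1 : ℝ) ≤ m := by exact_mod_cast hm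
  have hT : (0 : ℝ) < conwayT m := by exact_mod_cast T_pos hm
  split_ifs with h
  · rw [abs_zero]; positivity
  · have h1 : m % 2 = 1 := by omega
    have h4 : Real.log 4 = 2 * Real.log 2 := by
      rw [show (4 : ℝ) = 2 ^ 2 by norm_num, Real.log_pow]
      norm_num
    have h2 : Real.log (conwayT m) - Real.log m - Real.log 3 + 2 * Real.log 2 =
        Real.log (4 * conwayT m / (3 * m)) := by
      rw [Real.log_div (by positivity) (by positivity), Real.log_mul (by norm_num) hT.ne',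
        Real.log_mul (by norm_num) (by positivity), h4]
      ring
    rw [h2]
    rcases conwayT_odd h1 with h3 | h3
    · have h5 : (4 : ℝ) * conwayT m = 3 * m + 1 := by exact_mod_cast h3
      have h6 : (4 : ℝ) * conwayT m / (3 * m) = 1 + 1 / (3 * m) := by
        rw [h5]; field_simp
      rw [h6, abs_of_nonneg (Real.log_nonneg (by linarith [show (0:ℝ) ≤ 1 / (3 * m) by positivity]))]
      have h7 := Real.log_le_sub_one_of_pos (show (0 : ℝ) < 1 + 1 / (3 * m) by positivity)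
      have h8 : (1 : ℝ) / (3 * m) ≤ 1 / (2 * m) :=
        one_div_le_one_div_of_le (by positivity) (by linarith)
      linarith
    · have h5 : (4 : ℝ) * conwayT m + 1 = 3 * m := by exact_mod_cast h3
      have h6 : (4 : ℝ) * conwayT m / (3 * m) = 1 - 1 / (3 * m) := by
        rw [show (4 : ℝ) * conwayT m = 3 * m - 1 by linarith]; field_simp
      have h9 : (1 : ℝ) / (3 * m) ≤ 1 / 3 := one_div_le_one_div_of_le (by norm_num) (by linarith)
      have h10 : (0 : ℝ) < 1 / (3 * m) := by positivity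
      rw [h6, abs_of_nonpos (Real.log_nonpos (by linarith) (by linarith))]
      have h7 := Real.one_sub_inv_le_log_of_pos (show (0 : ℝ) < 1 - 1 / (3 * m) by linarith)
      have h8 : (1 - 1 / (3 * (m : ℝ)))⁻¹ - 1 = 1 / (3 * m - 1) := by
        have : (3 : ℝ) * m - 1 ≠ 0 := by linarith
        have h11 : 1 - 1 / (3 * (m : ℝ)) = (3 * m - 1) / (3 * m) := by field_simp
        rw [h11, inv_div]
        field_simp
        ring
      have h9 : (1 : ℝ) / (3 * m - 1) ≤ 1 / (2 * m) :=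
        one_div_le_one_div_of_le (by positivity) (by linarith)
      linarith

theorem log_step {m : ℕ} (hm : 0 < m) :
    Real.log (conwayT m) = Real.log m + Real.log 3 - (if m % 2 = 0 then 1 else 2) * Real.log 2 +
      eps m := by
  have hm' : (m : ℝ) ≠ 0 := by exact_mod_cast hm.ne'
  have hT : (conwayT m : ℝ) ≠ 0 := by exact_mod_cast (T_pos hm).ne'
  unfold eps
  split_ifs with h
  · have h1 : (2 : ℝ) * conwayT m = 3 * m := by exact_mod_cast conwayT_even h
    have h2 : Real.log (2 * conwayT m) = Real.log (3 * m) := by rw [h1]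
    rw [Real.log_mul (by norm_num) hT, Real.log_mul (by norm_num) hm'] at h2
    linarith
  · ring

/-- the product formula -/
theorem formula {n : ℕ} (h0 : 0 < n) : ∃ j : ℤ,
    (minimalPeriod conwayT n : ℝ) * Real.log 3 - (j : ℝ) * Real.log 2 =
      - ∑ m ∈ cyc conwayT n, eps m := by
  set p := minimalPeriod conwayT n with hp
  refine ⟨∑ i ∈ Finset.range p, (if (conwayT^[i] n) % 2 = 0 then 1 else 2 : ℤ), ?_⟩
  have htel : ∑ i ∈ Finset.range p,
      (Real.log (conwayT^[i + 1] n) - Real.log (conwayT^[i] n)) = 0 := by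
    rw [Finset.sum_range_sub (fun i => Real.log (conwayT^[i] n))]
    have : conwayT^[p] n = n := iterate_minimalPeriod
    rw [this]; simp
  have hstep : ∀ i ∈ Finset.range p,
      Real.log (conwayT^[i + 1] n) - Real.log (conwayT^[i] n) =
        (Real.log 3 + (- ((if (conwayT^[i] n) % 2 = 0 then 1 else 2 : ℤ) : ℝ) * Real.log 2)) +
          eps (conwayT^[i] n) := by
    intro i _
    have := log_step (iter_pos h0 i)
    rw [iterate_succ_apply', this]
    split_ifs <;> push_cast <;> ring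
  rw [Finset.sum_congr rfl hstep, Finset.sum_add_distrib, Finset.sum_add_distrib, Finset.sum_const,
    Finset.card_range, nsmul_eq_mul, ← Finset.sum_mul, Finset.sum_neg_distrib,
    ← sum_cyc n eps] at htel
  push_cast at htel ⊢
  linarith

/-- a cycle of Conway's permutation on the positive integers -/
def IsCyc (c : Finset ℕ) : Prop := ∃ n ∈ periodicPts conwayT, 0 < n ∧ c = cyc conwayT n

theorem IsCyc.pos {c : Finset ℕ} (h : IsCyc c) : ∀ m ∈ c, 0 < m := by
  obtain ⟨n, hn, h0, rfl⟩ := h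
  intro m hm
  obtain ⟨i, rfl⟩ := (mem_cyc hn).1 hm
  exact iter_pos h0 i

theorem IsCyc.disj {c c' : Finset ℕ} (h : IsCyc c) (h' : IsCyc c') (hne : c ≠ c') :
    Disjoint c c' := by
  obtain ⟨n, hn, h0, rfl⟩ := h
  obtain ⟨n', hn', h0', rfl⟩ := h'
  rw [Finset.disjoint_left]
  intro m hm hm'
  exact hne ((cyc_eq_of_mem hn hm).symm.trans (cyc_eq_of_mem hn' hm'))

theorem IsCyc.sum {c : Finset ℕ} (h : IsCyc c) {η : ℝ}
    (hη : η ≤ nint ((c.card : ℝ) * (Real.log 3 / Real.log 2))) :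
    2 * (η * Real.log 2) ≤ ∑ n ∈ c, (1 : ℝ) / n := by
  have hpos := h.pos
  obtain ⟨n, hn, h0, rfl⟩ := h
  obtain ⟨j, hj⟩ := formula h0
  have hl2 : 0 < Real.log 2 := Real.log_pos (by norm_num)
  have h1 := nint_le (((cyc conwayT n).card : ℝ) * (Real.log 3 / Real.log 2)) j
  have h2 : |((cyc conwayT n).card : ℝ) * (Real.log 3 / Real.log 2) - j| * Real.log 2 =
      |(minimalPeriod conwayT n : ℝ) * Real.log 3 - (j : ℝ) * Real.log 2| := by
    rw [card_cyc, ← abs_of_pos hl2, ← abs_mul, abs_of_pos hl2]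
    congr 1
    field_simp
  rw [hj, abs_neg] at h2
  have h3 : |∑ m ∈ cyc conwayT n, eps m| ≤ ∑ m ∈ cyc conwayT n, 1 / (2 * (m : ℝ)) :=
    (Finset.abs_sum_le_sum_abs _ _).trans
      (Finset.sum_le_sum fun m hm => abs_eps_le (hpos m hm))
  have h4 : ∑ m ∈ cyc conwayT n, 1 / (2 * (m : ℝ)) = (∑ m ∈ cyc conwayT n, 1 / (m : ℝ)) / 2 := by
    rw [Finset.sum_div]
    refine Finset.sum_congr rfl fun m _ => ?_
    rw [div_div, mul_comm]
  rw [h4] at h3
  have h5 : η * Real.log 2 ≤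
      |((cyc conwayT n).card : ℝ) * (Real.log 3 / Real.log 2) - j| * Real.log 2 :=
    mul_le_mul_of_nonneg_right (hη.trans h1) hl2.le
  linarith

/-- the main counting statement for finite families -/
theorem few_fin (F : Finset (Finset ℕ)) {X η : ℝ} (hX : 1 ≤ X) (hη : 0 < η) (hη1 : η ≤ 1)
    (hF : ∀ c ∈ F, IsCyc c ∧ (c.card : ℝ) ≤ X ∧
      η ≤ nint ((c.card : ℝ) * (Real.log 3 / Real.log 2))) :
    (F.card : ℝ) ≤ 3 * (1 + Real.log (X / η)) / η := by
  have hl2 : 0 < Real.log 2 := Real.log_pos (by norm_num)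
  have hl2g := Real.log_two_gt_d9
  have hl2l := Real.log_two_lt_d9
  have hb : 0 < η * Real.log 2 := by positivity
  have h1 := harmonic_bound F hb (X := X) (by nlinarith)
    (fun c hc c' hc' hne => (hF c hc).1.disj (hF c' hc').1 hne)
    (fun c hc => (hF c hc).1.pos) (fun c hc => (hF c hc).2.1)
    (fun c hc => (hF c hc).1.sum (hF c hc).2.2)
  have hX0 : 0 < X := by linarith
  have hXη : 1 ≤ X / η := by rw [le_div_iff₀ hη]; linarith
  have h2 : Real.log (X / (η * Real.log 2)) = Real.log (X / η) - Real.log (Real.log 2) := by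
    rw [← div_div, Real.log_div (by positivity) hl2.ne']
  have h3 : - Real.log (Real.log 2) ≤ 0.45 := by
    have h4 := Real.one_sub_inv_le_log_of_pos hl2
    have h6 : (Real.log 2)⁻¹ ≤ 1.45 := by
      rw [inv_le_comm₀ hl2 (by norm_num)]
      norm_num
      linarith
    linarith
  have h4 := Real.log_nonneg hXη
  rw [le_div_iff₀ hη]
  rw [h2] at h1
  have h5 : (F.card : ℝ) * η * Real.log 2 ≤ 1.45 + Real.log (X / η) := by linarith
  nlinarith [mul_nonneg (Nat.cast_nonneg (α := ℝ) F.card) hη.le]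

/-- the main counting statement -/
theorem few {X η : ℝ} (hX : 1 ≤ X) (hη : 0 < η) (hη1 : η ≤ 1) :
    {c : Finset ℕ | IsCyc c ∧ (c.card : ℝ) ≤ X ∧
      η ≤ nint ((c.card : ℝ) * (Real.log 3 / Real.log 2))}.Finite ∧
    (({c : Finset ℕ | IsCyc c ∧ (c.card : ℝ) ≤ X ∧
      η ≤ nint ((c.card : ℝ) * (Real.log 3 / Real.log 2))}.ncard : ℕ) : ℝ) ≤
      3 * (1 + Real.log (X / η)) / η := by
  set S := {c : Finset ℕ | IsCyc c ∧ (c.card : ℝ) ≤ X ∧
      η ≤ nint ((c.card : ℝ) * (Real.log 3 / Real.log 2))} with hS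
  have hfin : S.Finite := by
    by_contra hinf
    obtain ⟨F, hF, hcard⟩ := Set.Infinite.exists_subset_card_eq hinf
      (⌊3 * (1 + Real.log (X / η)) / η⌋₊ + 1)
    have h1 := few_fin F hX hη hη1 (fun c hc => hF hc)
    rw [hcard] at h1
    have h2 := Nat.lt_floor_add_one (3 * (1 + Real.log (X / η)) / η)
    push_cast at h1
    linarith
  refine ⟨hfin, ?_⟩
  rw [Set.ncard_eq_toFinset_card S hfin]
  exact few_fin _ hX hη hη1 (fun c hc => (Set.Finite.mem_toFinset hfin).1 hc)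

/-- the irrationality measure of `log 3 / log 2` -/
theorem measure : ∃ c : ℝ, 0 < c ∧ ∀ d : ℕ, 1 ≤ d → ∀ i : ℤ,
    c / (d : ℝ) ^ 23 ≤ |(d : ℝ) * (Real.log 3 / Real.log 2) - i| := by
  have hc0 := Pool.Agent.helper63.CL.c0_pos
  have hc1 := Pool.Agent.helper63.CL.c0_le
  refine ⟨Pool.Agent.helper63.CL.c0 / 2 ^ 23, by positivity, fun d hd i => ?_⟩
  have hd1 : (1 : ℝ) ≤ d := by exact_mod_cast hd
  have l2 := Real.log_two_gt_d9
  have l2' := Real.log_two_lt_d9
  have l3 := Pool.Agent.helper63.CL.log_three_gt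
  have l3' := Pool.Agent.helper63.CL.log_three_lt
  have hl2 : 0 < Real.log 2 := by linarith
  have hform : |(d : ℝ) * (Real.log 3 / Real.log 2) - i| * Real.log 2 =
      |(i : ℝ) * Real.log 2 - d * Real.log 3| := by
    rw [← abs_of_pos hl2, ← abs_mul, abs_of_pos hl2, abs_sub_comm]
    congr 1
    field_simp
  have hkey : Pool.Agent.helper63.CL.c0 / 2 ^ 23 / (d : ℝ) ^ 23 ≤
      |(i : ℝ) * Real.log 2 - d * Real.log 3| := by
    have hsmall : Pool.Agent.helper63.CL.c0 / 2 ^ 23 / (d : ℝ) ^ 23 ≤ 1 / 10 := by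
      refine (div_le_self (by positivity) (one_le_pow₀ hd1)).trans ?_
      exact (div_le_self hc0.le (by norm_num)).trans hc1
    rcases le_or_gt i 0 with h | h
    · refine hsmall.trans (le_trans ?_ (neg_le_abs _))
      have h1 : (i : ℝ) ≤ 0 := by exact_mod_cast h
      nlinarith
    rcases le_or_gt i (2 * d) with h' | h'
    · obtain ⟨e, rfl⟩ : ∃ e : ℕ, i = e := ⟨i.toNat, by omega⟩
      have he1 : 1 ≤ e := by exact_mod_cast h
      have h1 := Pool.Agent.helper63.CL.form_lower he1 (d : ℤ)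
      have h1' : Pool.Agent.helper63.CL.c0 / (e : ℝ) ^ 23 ≤
          |(((e : ℕ) : ℤ) : ℝ) * Real.log 2 - d * Real.log 3| := by
        rw [Int.cast_natCast]
        rw [Int.cast_natCast] at h1
        exact h1
      refine le_trans ?_ h1'
      rw [div_div, ← mul_pow]
      have h2 : (e : ℝ) ≤ 2 * d := by exact_mod_cast h'
      have h3 : (1 : ℝ) ≤ e := by exact_mod_cast he1
      exact div_le_div_of_nonneg_left hc0.le (by positivity) (pow_le_pow_left₀ (by positivity) h2 23)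
    · refine hsmall.trans (le_trans ?_ (le_abs_self _))
      have h1 : (2 : ℝ) * d ≤ i := by exact_mod_cast h'.le
      nlinarith
  have h1 : |(i : ℝ) * Real.log 2 - d * Real.log 3| ≤
      |(d : ℝ) * (Real.log 3 / Real.log 2) - i| := by
    rw [← hform]
    have := abs_nonneg ((d : ℝ) * (Real.log 3 / Real.log 2) - i)
    nlinarith
  exact hkey.trans h1

/-- the lengths of cycles -/
def Lengths : Set ℕ := {k : ℕ | ∃ c, IsCyc c ∧ c.card = k}

theorem count_lengths : ∃ C : ℝ, 0 < C ∧ ∀ X : ℝ, 1 ≤ X →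
    (({k : ℕ | (k : ℝ) ≤ X ∧ k ∈ Lengths}.ncard : ℕ) : ℝ) ≤
      C * X ^ (23 / 24 : ℝ) * (1 + Real.log X) := by
  obtain ⟨c, hc, hm⟩ := measure
  refine ⟨6 + (2 / c) ^ ((23 : ℝ)⁻¹) + 1, by positivity, fun X hX => ?_⟩
  have hX0 : 0 < X := by linarith
  set t : ℝ := 23 / 24 with ht
  set η : ℝ := X ^ (-t) with hη
  have hη0 : 0 < η := by positivity
  have hη1 : η ≤ 1 := Real.rpow_le_one_of_one_le_of_nonpos hX (by norm_num [ht])
  obtain ⟨hf, hn⟩ := few hX hη0 hη1
  obtain ⟨hf2, hn2⟩ := ncard_near (by norm_num) hc hm hX0.le hη0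
  set A : Set (Finset ℕ) := {c : Finset ℕ | IsCyc c ∧ (c.card : ℝ) ≤ X ∧
      η ≤ nint ((c.card : ℝ) * (Real.log 3 / Real.log 2))} with hA
  set B : Set ℕ := {k : ℕ | (k : ℝ) ≤ X ∧ nint ((k : ℝ) * (Real.log 3 / Real.log 2)) < η} with hB
  have hsub : {k : ℕ | (k : ℝ) ≤ X ∧ k ∈ Lengths} ⊆ (Finset.card '' A) ∪ B := by
    rintro k ⟨hk, c, hc, hk'⟩
    by_cases hd : η ≤ nint ((k : ℝ) * (Real.log 3 / Real.log 2))
    · exact Or.inl ⟨c, ⟨hc, by rw [hk']; exact hk, by rw [hk']; exact hd⟩, hk'⟩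
    · exact Or.inr ⟨hk, not_le.1 hd⟩
  have hlog0 := Real.log_nonneg hX
  have hXt : (1 : ℝ) ≤ X ^ t := Real.one_le_rpow hX (by norm_num [ht])
  have h1 : 3 * (1 + Real.log (X / η)) / η ≤ 6 * X ^ t * (1 + Real.log X) := by
    have e1 : X / η = X * X ^ t := by
      rw [hη, Real.rpow_neg hX0.le, div_inv_eq_mul]
    have e2 : Real.log (X / η) = Real.log X + t * Real.log X := by
      rw [e1, Real.log_mul hX0.ne' (by positivity), Real.log_rpow hX0]
    have e3 : 3 * (1 + Real.log (X / η)) / η = 3 * (1 + Real.log (X / η)) * X ^ t := by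
      rw [hη, Real.rpow_neg hX0.le, div_inv_eq_mul]
    rw [e3, e2]
    have h2 : 3 * (1 + (Real.log X + t * Real.log X)) ≤ 6 * (1 + Real.log X) := by
      have : t * Real.log X ≤ 1 * Real.log X := mul_le_mul_of_nonneg_right (by norm_num [ht]) hlog0
      linarith
    calc 3 * (1 + (Real.log X + t * Real.log X)) * X ^ t ≤ 6 * (1 + Real.log X) * X ^ t := by
          gcongr
      _ = _ := by ring
  have h2 : X * (2 * η / c) ^ (((23 : ℕ) : ℝ)⁻¹) = (2 / c) ^ ((23 : ℝ)⁻¹) * X ^ t := by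
    have e1 : 2 * η / c = 2 / c * η := by ring
    have e2 : X * η ^ ((23 : ℝ)⁻¹) = X ^ t := by
      rw [hη, ← Real.rpow_mul hX0.le]
      nth_rewrite 1 [← Real.rpow_one X]
      rw [← Real.rpow_add hX0, ht]
      norm_num
    rw [e1]
    push_cast
    rw [Real.mul_rpow (by positivity) hη0.le, ← e2]
    ring
  have h4 : (((Finset.card '' A) ∪ B).ncard : ℝ) ≤ (A.ncard : ℝ) + B.ncard := by
    have h5 := Set.ncard_union_le (Finset.card '' A) B
    have h6 := Set.ncard_image_le (f := Finset.card) hf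
    exact_mod_cast h5.trans (Nat.add_le_add_right h6 _)
  have h0 : (({k : ℕ | (k : ℝ) ≤ X ∧ k ∈ Lengths}.ncard : ℕ) : ℝ) ≤
      (((Finset.card '' A) ∪ B).ncard : ℝ) := by
    exact_mod_cast Set.ncard_le_ncard hsub ((hf.image _).union hf2)
  rw [h2] at hn2
  have h7 : (2 / c) ^ ((23 : ℝ)⁻¹) * X ^ t ≤ (2 / c) ^ ((23 : ℝ)⁻¹) * X ^ t * (1 + Real.log X) := by
    have : 0 ≤ (2 / c) ^ ((23 : ℝ)⁻¹) * X ^ t := by positivity
    nlinarith
  have h8 : (1 : ℝ) ≤ X ^ t * (1 + Real.log X) := by nlinarith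
  calc (({k : ℕ | (k : ℝ) ≤ X ∧ k ∈ Lengths}.ncard : ℕ) : ℝ)
      ≤ (A.ncard : ℝ) + B.ncard := h0.trans h4
    _ ≤ 6 * X ^ t * (1 + Real.log X) + ((2 / c) ^ ((23 : ℝ)⁻¹) * X ^ t + 1) :=
        add_le_add (hn.trans h1) hn2
    _ ≤ (6 + (2 / c) ^ ((23 : ℝ)⁻¹) + 1) * X ^ t * (1 + Real.log X) := by linarith

end Pool.Agent.helper21.CP
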