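import Mathlib

/-!
# Cycles of a map as finite sets, and the harmonic sum bound

If pairwise disjoint finite sets of positive integers have at most `X` elements each and the sum of
the reciprocals of the elements of each set is at least `2 * b`, then their number is at most
`(1 + log (X / b)) / b`.
-/

set_option autoImplicit false

namespace Pool.Agent.helper21.CP

open Function

section general

variable {α : Type*} [DecidableEq α] (f : α → α)

/-- the cycle of a periodic point as a finite set -/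
noncomputable def cyc (n : α) : Finset α := (Finset.range (minimalPeriod f n)).image fun i => f^[i] n

variable {f}

omit [DecidableEq α] in
theorem inj_cyc (n : α) : Set.InjOn (fun i => f^[i] n)
    ((Finset.range (minimalPeriod f n) : Finset ℕ) : Set ℕ) := by
  have h := iterate_injOn_Iio_minimalPeriod (f := f) (x := n)
  intro i hi j hj hij
  apply h
  · simpa using hi
  · simpa using hj
  · exact hij

theorem card_cyc (n : α) : (cyc f n).card = minimalPeriod f n := by
  unfold cyc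
  rw [Finset.card_image_of_injOn (inj_cyc n), Finset.card_range]

theorem sum_cyc (n : α) (g : α → ℝ) :
    ∑ m ∈ cyc f n, g m = ∑ i ∈ Finset.range (minimalPeriod f n), g (f^[i] n) := by
  unfold cyc
  rw [Finset.sum_image (inj_cyc n)]

theorem mem_cyc {n : α} (hn : n ∈ periodicPts f) {m : α} : m ∈ cyc f n ↔ ∃ i : ℕ, f^[i] n = m := by
  have hp := minimalPeriod_pos_of_mem_periodicPts hn
  unfold cyc
  rw [Finset.mem_image]
  constructor
  · rintro ⟨i, _, h⟩
    exact ⟨i, h⟩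
  · rintro ⟨i, h⟩
    refine ⟨i % minimalPeriod f n, Finset.mem_range.2 (Nat.mod_lt _ hp), ?_⟩
    rw [iterate_mod_minimalPeriod_eq, h]

omit [DecidableEq α] in
theorem iter_mem {n : α} (hn : n ∈ periodicPts f) (i : ℕ) : f^[i] n ∈ periodicPts f := by
  obtain ⟨k, hk, h⟩ := hn
  refine ⟨k, hk, ?_⟩
  have h1 : f^[k] n = n := h
  show f^[k] (f^[i] n) = f^[i] n
  rw [← iterate_add_apply, Nat.add_comm, iterate_add_apply, h1]

theorem periodic_of_mem {n : α} (hn : n ∈ periodicPts f) {m : α} (hm : m ∈ cyc f n) :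
    m ∈ periodicPts f := by
  obtain ⟨i, rfl⟩ := (mem_cyc hn).1 hm
  exact iter_mem hn i

theorem cyc_eq_of_mem {n : α} (hn : n ∈ periodicPts f) {m : α} (hm : m ∈ cyc f n) :
    cyc f m = cyc f n := by
  have hm' := periodic_of_mem hn hm
  obtain ⟨i, hi⟩ := (mem_cyc hn).1 hm
  have hp := minimalPeriod_pos_of_mem_periodicPts hn
  have hper : f^[minimalPeriod f n * i] n = n := by
    have h1 : IsPeriodicPt f (minimalPeriod f n) n := isPeriodicPt_minimalPeriod f n
    exact (h1.mul_const i)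
  have hback : f^[minimalPeriod f n * i - i] m = n := by
    rw [← hi, ← iterate_add_apply, Nat.sub_add_cancel, hper]
    exact Nat.le_mul_of_pos_left i hp
  ext x
  rw [mem_cyc hm', mem_cyc hn]
  constructor
  · rintro ⟨j, rfl⟩
    exact ⟨j + i, by rw [iterate_add_apply, hi]⟩
  · rintro ⟨j, rfl⟩
    exact ⟨j + (minimalPeriod f n * i - i), by rw [iterate_add_apply, hback]⟩

end general

/-- the harmonic sum argument -/
theorem harmonic_bound (F : Finset (Finset ℕ)) {X b : ℝ} (hb : 0 < b) (hXb : b ≤ X)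
    (hdisj : ∀ c ∈ F, ∀ c' ∈ F, c ≠ c' → Disjoint c c')
    (hpos : ∀ c ∈ F, ∀ n ∈ c, 0 < n) (hcard : ∀ c ∈ F, (c.card : ℝ) ≤ X)
    (hsum : ∀ c ∈ F, 2 * b ≤ ∑ n ∈ c, (1 : ℝ) / n) :
    (F.card : ℝ) * b ≤ 1 + Real.log (X / b) := by
  have hX : 0 < X := hb.trans_le hXb
  set Y : ℝ := X / b with hY
  have hY1 : 1 ≤ Y := by rw [hY, le_div_iff₀ hb]; linarith
  have hY0 : 0 < Y := by linarith
  have h1 : ∀ c ∈ F, b ≤ ∑ n ∈ c.filter (fun n => n ≤ ⌊Y⌋₊), (1 : ℝ) / n := by
    intro c hc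
    have h2 := Finset.sum_filter_add_sum_filter_not c (fun n => n ≤ ⌊Y⌋₊) (fun n => (1 : ℝ) / n)
    have h3 : ∑ n ∈ c.filter (fun n => ¬ n ≤ ⌊Y⌋₊), (1 : ℝ) / n ≤ b := by
      have h4 : ∀ n ∈ c.filter (fun n => ¬ n ≤ ⌊Y⌋₊), (1 : ℝ) / n ≤ 1 / Y := by
        intro n hn
        have h5 := (Finset.mem_filter.1 hn).2
        push Not at h5
        have h6 : Y < n := (Nat.floor_lt hY0.le).1 h5
        exact one_div_le_one_div_of_le hY0 h6.le
      have h5 := Finset.sum_le_card_nsmul _ _ _ h4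
      rw [nsmul_eq_mul] at h5
      have h6 : ((c.filter (fun n => ¬ n ≤ ⌊Y⌋₊)).card : ℝ) ≤ X := by
        refine le_trans ?_ (hcard c hc)
        exact_mod_cast Finset.card_filter_le _ _
      have h7 : ((c.filter (fun n => ¬ n ≤ ⌊Y⌋₊)).card : ℝ) * (1 / Y) ≤ X * (1 / Y) :=
        mul_le_mul_of_nonneg_right h6 (by positivity)
      have h8 : X * (1 / Y) = b := by rw [hY]; field_simp
      linarith
    have h4 := hsum c hc
    linarith
  have h2 : (F.card : ℝ) * b ≤ ∑ c ∈ F, ∑ n ∈ c.filter (fun n => n ≤ ⌊Y⌋₊), (1 : ℝ) / n := by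
    have := Finset.card_nsmul_le_sum F _ _ h1
    rwa [nsmul_eq_mul] at this
  have h3 : ∑ c ∈ F, ∑ n ∈ c.filter (fun n => n ≤ ⌊Y⌋₊), (1 : ℝ) / n =
      ∑ n ∈ F.biUnion (fun c => c.filter (fun n => n ≤ ⌊Y⌋₊)), (1 : ℝ) / n := by
    rw [Finset.sum_biUnion]
    intro c hc c' hc' hne
    exact (hdisj c hc c' hc' hne).mono (Finset.filter_subset _ _) (Finset.filter_subset _ _)
  have h4 : ∑ n ∈ F.biUnion (fun c => c.filter (fun n => n ≤ ⌊Y⌋₊)), (1 : ℝ) / n ≤
      ∑ n ∈ Finset.Icc 1 ⌊Y⌋₊, (1 : ℝ) / n := by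
    apply Finset.sum_le_sum_of_subset_of_nonneg
    · intro n hn
      obtain ⟨c, hc, hn⟩ := Finset.mem_biUnion.1 hn
      obtain ⟨hn1, hn2⟩ := Finset.mem_filter.1 hn
      exact Finset.mem_Icc.2 ⟨hpos c hc n hn1, hn2⟩
    · intro n _ _
      positivity
  have h5 : ∑ n ∈ Finset.Icc 1 ⌊Y⌋₊, (1 : ℝ) / n = ((harmonic ⌊Y⌋₊ : ℚ) : ℝ) := by
    rw [harmonic_eq_sum_Icc]
    push_cast
    exact Finset.sum_congr rfl fun n _ => by rw [one_div]
  have h6 := harmonic_floor_le_one_add_log Y hY1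
  rw [← h5] at h6
  linarith

end Pool.Agent.helper21.CP
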